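import Pool.Agent.H442R2.KF.AsmB

/-!
Least primes in progressions from level-of-distribution estimates for all but few residues.
-/

set_option autoImplicit false

namespace Pool.Agent.H442R2.LP

open Finset
open Pool.Agent.H442R2.KF

theorem piN_ge (x : ℕ) (hx : 3 ≤ x) : (x : ℝ) ≤ 5 * (piN x : ℝ) * Real.log x := by
  have h1 := Chebyshev.psi_ge x
  have h2 := Chebyshev.psi_le_primeCounting_mul_log x
  have h3 : (piN x : ℝ) = (Nat.primeCounting x : ℝ) := by
    congr 1
    unfold piN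
    rw [Nat.primeCounting, Nat.primeCounting', Nat.count_eq_card_filter_range]
    congr 1
    ext p
    simp only [Finset.mem_filter, Finset.mem_Icc, Finset.mem_range]
    constructor
    · rintro ⟨⟨h1, h2⟩, h3⟩; exact ⟨by omega, h3⟩
    · rintro ⟨h1, h3⟩; exact ⟨⟨h3.one_le, by omega⟩, h3⟩
  rw [h3]
  have hlog2 : 0.6931471803 < Real.log 2 := Real.log_two_gt_d9
  have hx' : (3 : ℝ) ≤ x := by exact_mod_cast hx
  have h4 : Real.log ((x : ℝ) + 1) ≤ Real.log 4 + ((x : ℝ) + 1) / 4 - 1 := by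
    have h5 : Real.log (((x : ℝ) + 1) / 4) ≤ ((x : ℝ) + 1) / 4 - 1 :=
      Real.log_le_sub_one_of_pos (by positivity)
    have h6 : Real.log (((x : ℝ) + 1) / 4) = Real.log ((x : ℝ) + 1) - Real.log 4 :=
      Real.log_div (by positivity) (by norm_num)
    linarith
  have hlog4 : Real.log 4 = 2 * Real.log 2 := by
    rw [show (4 : ℝ) = 2 ^ 2 by norm_num, Real.log_pow]; norm_num
  have hlog2' : Real.log 2 < 0.6931471808 := Real.log_two_lt_d9
  nlinarith

open Classical in
/-- the moduli `a ∈ (D, 2D]` with `P D a`, coprime to `b`, such that no prime `p ≤ a^lam` is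
`≡ b (mod a)` -/
noncomputable def bad (P : ℕ → ℕ → Prop) (lam : ℝ) (D b : ℕ) : Finset ℕ :=
  (Ioc D (2 * D)).filter (fun a : ℕ => P D a ∧ Nat.Coprime b a ∧
    ∀ p : ℕ, p.Prime → p ≡ b [MOD a] → (a : ℝ) ^ lam < p)

theorem mem_bad {P : ℕ → ℕ → Prop} {lam : ℝ} {D b a : ℕ} : a ∈ bad P lam D b ↔
    (D < a ∧ a ≤ 2 * D) ∧ P D a ∧ Nat.Coprime b a ∧
    ∀ p : ℕ, p.Prime → p ≡ b [MOD a] → (a : ℝ) ^ lam < p := by
  simp only [bad, Finset.mem_filter, Finset.mem_Ioc]

theorem card_bad_le (P : ℕ → ℕ → Prop) (lam : ℝ) (D b : ℕ) : (bad P lam D b).card ≤ D := by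
  classical
  unfold bad
  refine (Finset.card_filter_le _ _).trans ?_
  rw [Nat.card_Ioc]; omega

theorem er_ge {D x a b : ℕ} (hD : 1 ≤ D) (hx : 3 ≤ x) (ha : 1 ≤ a) (ha2 : a ≤ 2 * D)
    (h0 : piAP x a b = 0) : (x : ℝ) / (10 * D * Real.log x) ≤ |Er x a b| := by
  have hlog : 0 < Real.log x := Real.log_pos (by exact_mod_cast (by omega : 1 < x))
  have hφ : 0 < (Nat.totient a : ℝ) := by exact_mod_cast Nat.totient_pos.2 ha
  have hφ2 : (Nat.totient a : ℝ) ≤ 2 * D := by exact_mod_cast (Nat.totient_le a).trans ha2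
  have hD' : (1 : ℝ) ≤ D := by exact_mod_cast hD
  have h1 := piN_ge x hx
  unfold Er
  rw [h0, Nat.cast_zero, zero_sub, abs_neg, abs_of_nonneg (by positivity)]
  rw [div_le_div_iff₀ (by positivity) hφ]
  have h2 : (x : ℝ) * Nat.totient a ≤ (5 * (piN x : ℝ) * Real.log x) * (2 * D) :=
    mul_le_mul h1 hφ2 hφ.le (by positivity)
  nlinarith

theorem card_le {P : ℕ → ℕ → Prop} {lam : ℝ} {D x b : ℕ} {G : Finset ℕ} {U : ℕ}
    (hD : 3 ≤ D) (hDx : D ≤ x) (hl : 0 < lam) (hxl : (x : ℝ) ≤ (D : ℝ) ^ lam)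
    (hG : ∀ a ∈ bad P lam D b, a ∈ G)
    (hs : ∑ a ∈ G.filter (fun a => Nat.Coprime b a), |Er x a b| ≤
      (x : ℝ) / Real.log x ^ ((U : ℝ) + 1)) :
    ((bad P lam D b).card : ℝ) ≤ 10 * D / Real.log D ^ U := by
  have hx : 3 ≤ x := hD.trans hDx
  have hlog : 0 < Real.log x := Real.log_pos (by exact_mod_cast (by omega : 1 < x))
  have hlogD : 0 < Real.log D := Real.log_pos (by exact_mod_cast (by omega : 1 < D))
  have hD' : (3 : ℝ) ≤ D := by exact_mod_cast hD
  have hx' : (3 : ℝ) ≤ x := by exact_mod_cast hx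
  have h1 : ((bad P lam D b).card : ℝ) * ((x : ℝ) / (10 * D * Real.log x)) ≤
      (x : ℝ) / Real.log x ^ ((U : ℝ) + 1) := by
    refine le_trans ?_ hs
    rw [← nsmul_eq_mul, ← Finset.sum_const]
    refine (Finset.sum_le_sum (g := fun a => |Er x a b|) ?_).trans
      (Finset.sum_le_sum_of_subset_of_nonneg ?_ (fun _ _ _ => abs_nonneg _))
    · intro a ha
      have hm := mem_bad.1 ha
      refine er_ge (by omega) hx (by omega) hm.1.2 ?_
      unfold piAP
      rw [Finset.card_eq_zero, Finset.filter_eq_empty_iff]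
      rintro p hp ⟨hpp, hpm⟩
      have h2 := hm.2.2.2 p hpp hpm
      have h3 : (p : ℝ) ≤ x := by exact_mod_cast (Finset.mem_Icc.1 hp).2
      have h4 : (D : ℝ) ^ lam ≤ (a : ℝ) ^ lam :=
        Real.rpow_le_rpow (by positivity) (by exact_mod_cast hm.1.1.le) hl.le
      linarith
    · intro a ha
      have hm := mem_bad.1 ha
      exact Finset.mem_filter.2 ⟨hG a ha, hm.2.2.1⟩
  have h2 : (x : ℝ) / Real.log x ^ ((U : ℝ) + 1) = x / (Real.log x ^ U * Real.log x) := by
    rw [Real.rpow_add hlog, Real.rpow_one, Real.rpow_natCast]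
  rw [h2] at h1
  have h3 : ((bad P lam D b).card : ℝ) * Real.log x ^ U ≤ 10 * D := by
    have h4 : ((bad P lam D b).card : ℝ) * ((x : ℝ) / (10 * D * Real.log x)) =
      (((bad P lam D b).card : ℝ) / (10 * D)) * (x / Real.log x) := by field_simp
    have h5 : (x : ℝ) / (Real.log x ^ U * Real.log x) =
      (1 / Real.log x ^ U) * (x / Real.log x) := by field_simp
    rw [h4, h5] at h1
    have h6 := le_of_mul_le_mul_right h1 (by positivity)
    rw [div_le_div_iff₀ (by positivity) (by positivity)] at h6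
    linarith
  have h4 : Real.log D ^ U ≤ Real.log x ^ U :=
    pow_le_pow_left₀ hlogD.le (Real.log_le_log (by positivity) (by exact_mod_cast hDx)) U
  rw [le_div_iff₀ (by positivity)]
  calc ((bad P lam D b).card : ℝ) * Real.log D ^ U
      ≤ ((bad P lam D b).card : ℝ) * Real.log x ^ U :=
        mul_le_mul_of_nonneg_left h4 (Nat.cast_nonneg _)
    _ ≤ 10 * D := h3

theorem core (lam th mu : ℝ) (hth : 0 < th) (h1 : 1 < lam * th) (hl : 1 ≤ lam) (hmu : mu ≤ lam)
    (G : ℕ → Finset ℕ) (P : ℕ → ℕ → Prop)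
    (hGP : ∀ D a x : ℕ, 3 ≤ D → D < a → a ≤ 2 * D → P D a → D ≤ x →
      ((2 * D : ℕ) : ℝ) ≤ (x : ℝ) ^ th → a ∈ G x)
    (U : ℕ) (B0 C0 : ℝ) (hC0 : 0 < C0) (hB0 : 0 ≤ B0)
    (hG : ∀ x : ℕ, 3 ≤ x → (((Icc 1 x).filter (fun b : ℕ =>
      (x : ℝ) / Real.log x ^ ((U : ℝ) + 1) <
        ∑ a ∈ (G x).filter (fun a => Nat.Coprime b a), |Er x a b|)).card : ℝ) ≤
      C0 * Real.log x ^ B0) :
    ∃ C : ℝ, 0 < C ∧ ∀ D : ℕ, 3 ≤ D →
      (((Icc 1 ⌊(D : ℝ) ^ mu⌋₊).filter (fun b : ℕ => C * D / Real.log D ^ U <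
        ((bad P lam D b).card : ℝ))).card : ℝ) ≤ C * Real.log D ^ B0 := by
  -- threshold
  have hlim : ∀ᶠ t : ℝ in Filter.atTop, (2 : ℝ) ^ (1 + th) ≤ t ^ (lam * th - 1) :=
    (tendsto_rpow_atTop (by linarith : 0 < lam * th - 1)).eventually_ge_atTop _
  obtain ⟨t0, ht0⟩ := Filter.eventually_atTop.1 hlim
  obtain ⟨D0, hD0⟩ : ∃ D0 : ℕ, t0 ≤ D0 := exists_nat_ge t0
  set L0 : ℝ := Real.log (D0 + 3) ^ U with hL0
  have hL0p : 0 < L0 := pow_pos (Real.log_pos (by
    have : (0 : ℝ) ≤ D0 := Nat.cast_nonneg _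
    linarith)) U
  set C : ℝ := 10 + L0 + C0 * lam ^ B0 with hC
  have hlp : 0 < lam := by linarith
  have hCp : 0 < C0 * lam ^ B0 := mul_pos hC0 (Real.rpow_pos_of_pos hlp _)
  refine ⟨C, by positivity, ?_⟩
  intro D hD
  have hD' : (3 : ℝ) ≤ D := by exact_mod_cast hD
  have hlogD : 0 < Real.log D := Real.log_pos (by linarith)
  rcases lt_or_ge D D0 with hlt | hge
  · -- small D
    have : (Icc 1 ⌊(D : ℝ) ^ mu⌋₊).filter (fun b : ℕ => C * D / Real.log D ^ U <
        ((bad P lam D b).card : ℝ)) = ∅ := by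
      rw [Finset.filter_eq_empty_iff]
      intro b _ h
      have h2 : ((bad P lam D b).card : ℝ) ≤ D := by exact_mod_cast card_bad_le P lam D b
      have h3 : Real.log D ^ U ≤ L0 := by
        refine pow_le_pow_left₀ hlogD.le (Real.log_le_log (by linarith) ?_) U
        have : (D : ℝ) ≤ D0 := by exact_mod_cast hlt.le
        linarith
      have h4 : (D : ℝ) ≤ C * D / Real.log D ^ U := by
        rw [le_div_iff₀ (by positivity)]
        have : Real.log D ^ U ≤ C := by linarith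
        nlinarith
      linarith
    rw [this]
    simp only [Finset.card_empty, Nat.cast_zero]
    have := Real.rpow_nonneg hlogD.le B0
    positivity
  · -- large D
    set x : ℕ := ⌊(D : ℝ) ^ lam⌋₊ with hx
    have hDl : (D : ℝ) ≤ (D : ℝ) ^ lam := by
      conv_lhs => rw [← Real.rpow_one (D : ℝ)]
      exact Real.rpow_le_rpow_of_exponent_le (by linarith) hl
    have hDx : D ≤ x := Nat.le_floor hDl
    have hxD : (x : ℝ) ≤ (D : ℝ) ^ lam := Nat.floor_le (by positivity)
    have hx3 : 3 ≤ x := hD.trans hDx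
    have hxlow : (D : ℝ) ^ lam / 2 ≤ x := by
      have h2 := Nat.lt_floor_add_one ((D : ℝ) ^ lam)
      have h3 : (1 : ℝ) ≤ x := by exact_mod_cast (by omega : 1 ≤ x)
      rw [← hx] at h2
      linarith
    have h2D : ((2 * D : ℕ) : ℝ) ≤ (x : ℝ) ^ th := by
      have h2 : ((D : ℝ) ^ lam / 2) ^ th ≤ (x : ℝ) ^ th :=
        Real.rpow_le_rpow (by positivity) hxlow hth.le
      refine le_trans ?_ h2
      rw [Real.div_rpow (by positivity) (by norm_num), ← Real.rpow_mul (by positivity),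
        le_div_iff₀ (by positivity)]
      have h3 := ht0 D (hD0.trans (by exact_mod_cast hge))
      have h4 : (D : ℝ) ^ (lam * th) = (D : ℝ) ^ (lam * th - 1) * D := by
        rw [← Real.rpow_add_one (by positivity)]; congr 1; ring
      have h5 : (2 : ℝ) ^ (1 + th) = 2 * 2 ^ th := by
        rw [Real.rpow_add (by norm_num), Real.rpow_one]
      rw [h4]
      push_cast
      rw [h5] at h3
      nlinarith
    have hlogx : Real.log x ≤ lam * Real.log D := by
      rw [← Real.log_rpow (by linarith)]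
      exact Real.log_le_log (by exact_mod_cast (by omega : 0 < x)) hxD
    have hlogx0 : 0 ≤ Real.log x := Real.log_natCast_nonneg x
    have hsub : (Icc 1 ⌊(D : ℝ) ^ mu⌋₊).filter (fun b : ℕ => C * D / Real.log D ^ U <
        ((bad P lam D b).card : ℝ)) ⊆ (Icc 1 x).filter (fun b : ℕ =>
      (x : ℝ) / Real.log x ^ ((U : ℝ) + 1) <
        ∑ a ∈ (G x).filter (fun a => Nat.Coprime b a), |Er x a b|) := by
      intro b hb
      rw [Finset.mem_filter, Finset.mem_Icc] at hb
      rw [Finset.mem_filter, Finset.mem_Icc]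
      refine ⟨⟨hb.1.1, hb.1.2.trans (Nat.floor_le_floor
        (Real.rpow_le_rpow_of_exponent_le (by linarith) hmu))⟩, ?_⟩
      by_contra hcon
      rw [not_lt] at hcon
      have h2 := card_le (P := P) (lam := lam) (b := b) (G := G x) hD hDx hlp hxD (by
        intro a ha
        have hm := mem_bad.1 ha
        exact hGP D a x hD hm.1.1 hm.1.2 hm.2.1 hDx h2D) hcon
      have h3 : 10 * (D : ℝ) / Real.log D ^ U ≤ C * D / Real.log D ^ U := by
        refine div_le_div_of_nonneg_right ?_ (by positivity)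
        have : (10 : ℝ) ≤ C := by linarith
        nlinarith
      linarith [hb.2]
    calc (((Icc 1 ⌊(D : ℝ) ^ mu⌋₊).filter (fun b : ℕ => C * D / Real.log D ^ U <
        ((bad P lam D b).card : ℝ))).card : ℝ)
        ≤ _ := by exact_mod_cast Finset.card_le_card hsub
      _ ≤ C0 * Real.log x ^ B0 := hG x hx3
      _ ≤ C0 * (lam * Real.log D) ^ B0 :=
        mul_le_mul_of_nonneg_left (Real.rpow_le_rpow hlogx0 hlogx hB0) hC0.le
      _ = (C0 * lam ^ B0) * Real.log D ^ B0 := by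
        rw [Real.mul_rpow hlp.le hlogD.le]; ring
      _ ≤ C * Real.log D ^ B0 :=
        mul_le_mul_of_nonneg_right (by linarith) (Real.rpow_nonneg hlogD.le _)

end Pool.Agent.H442R2.LP
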