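import Pool.Agent.H442R2.BX.Asm
import Pool.Agent.H442R2.KF.Pri

/-!
Isolated primes in progressions to prime moduli up to `N^(14/27 - ε)`.
-/

set_option autoImplicit false

namespace Pool.Agent.H442R2.LP

open Finset
open Pool.Agent.H442R2.BX

/-- statement of `MP_e87c7d_nt.PrimesAvoidingShifts` -/
def PAS : Prop := ∀ C : ℝ, ∃ c : ℝ, 0 < c ∧ ∃ N₀ : ℕ, ∀ N : ℕ, N₀ ≤ N → ∀ A : Finset ℤ,
    (∀ a ∈ A, |a| ≤ N ∧ a ≠ 0) →
    ∑ a ∈ A, ((a.natAbs : ℝ) / (Nat.totient a.natAbs : ℝ)) ≤ C * Real.log N →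
    c * (N / Real.log N) ≤ (((Finset.range N).filter
      (fun p : ℕ => p.Prime ∧ ∀ a ∈ A, ¬ ((p : ℤ) - a).natAbs.Prime)).card : ℝ)

theorem tot_sum : ∃ C : ℝ, 0 < C ∧ ∀ X : ℕ, ∑ d ∈ Icc 1 X, (d : ℝ) / Nat.totient d ≤ C * X := by
  obtain ⟨C, hC, h⟩ := Pool.Agent.H442R2.KF.TaskQ.inv_totient_le
  have hs : Summable (fun q : ℕ => (1 : ℝ) / (q : ℝ) ^ (7 / 4 : ℝ)) :=
    Real.summable_one_div_nat_rpow.2 (by norm_num)
  set T : ℝ := ∑' q : ℕ, (1 : ℝ) / (q : ℝ) ^ (7 / 4 : ℝ) with hT
  have hT0 : 0 ≤ T := tsum_nonneg fun q => by positivity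
  refine ⟨C * T + 1, by positivity, ?_⟩
  intro X
  rw [Pool.Agent.H442R2.KF.TaskQ.sum_div_totient (fun d => (d : ℝ)) X]
  have h1 : ∀ q ∈ (Icc 1 X).filter Squarefree,
      (1 / (Nat.totient q : ℝ)) * Pool.Agent.H442R2.KF.uh (fun d => (d : ℝ)) X q ≤
      (C * X) * ((1 : ℝ) / (q : ℝ) ^ (7 / 4 : ℝ)) := by
    intro q hq
    have hq1 : 1 ≤ q := (Finset.mem_Icc.1 (Finset.mem_filter.1 hq).1).1
    have hq0 : (0 : ℝ) < q := by exact_mod_cast hq1
    have h2 : Pool.Agent.H442R2.KF.uh (fun d => (d : ℝ)) X q ≤ (X : ℝ) / q := by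
      unfold Pool.Agent.H442R2.KF.uh
      have h3 : ∀ d ∈ (Icc 1 X).filter (fun d => q ∣ d), (d : ℝ) / d = 1 := by
        intro d hd
        have : 1 ≤ d := (Finset.mem_Icc.1 (Finset.mem_filter.1 hd).1).1
        have : (d : ℝ) ≠ 0 := by
          have : d ≠ 0 := by omega
          exact_mod_cast this
        field_simp
      rw [Finset.sum_congr rfl h3, Finset.sum_const, nsmul_eq_mul, mul_one]
      have h4 : ((Icc 1 X).filter (fun d => q ∣ d)).card = X / q := by
        have := Nat.Ioc_filter_dvd_card_eq_div X q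
        rw [← this]
        congr 1
      rw [h4]
      exact Nat.cast_div_le
    have h5 := h q hq1
    have hX : (0 : ℝ) ≤ X := Nat.cast_nonneg X
    calc (1 / (Nat.totient q : ℝ)) * Pool.Agent.H442R2.KF.uh (fun d => (d : ℝ)) X q
        ≤ (1 / (Nat.totient q : ℝ)) * ((X : ℝ) / q) :=
          mul_le_mul_of_nonneg_left h2 (by positivity)
      _ ≤ (C * (q : ℝ) ^ (1 / 4 : ℝ) / q) * ((X : ℝ) / q) :=
          mul_le_mul_of_nonneg_right h5 (by positivity)
      _ = (C * X) * ((1 : ℝ) / (q : ℝ) ^ (7 / 4 : ℝ)) := by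
          have h6 : (q : ℝ) ^ (7 / 4 : ℝ) * (q : ℝ) ^ (1 / 4 : ℝ) = q * q := by
            rw [← Real.rpow_add hq0, ← pow_two, ← Real.rpow_natCast]
            norm_num
          have h7 : (0 : ℝ) < (q : ℝ) ^ (7 / 4 : ℝ) := by positivity
          have h8 : (0 : ℝ) < (q : ℝ) ^ (1 / 4 : ℝ) := by positivity
          rw [mul_one_div, div_mul_div_comm, div_eq_div_iff (by positivity) (by positivity)]
          rw [← h6]; ring
  calc ∑ q ∈ (Icc 1 X).filter Squarefree,
        (1 / (Nat.totient q : ℝ)) * Pool.Agent.H442R2.KF.uh (fun d => (d : ℝ)) X q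
      ≤ ∑ q ∈ (Icc 1 X).filter Squarefree, (C * X) * ((1 : ℝ) / (q : ℝ) ^ (7 / 4 : ℝ)) :=
        Finset.sum_le_sum h1
    _ = (C * X) * ∑ q ∈ (Icc 1 X).filter Squarefree, ((1 : ℝ) / (q : ℝ) ^ (7 / 4 : ℝ)) := by
        rw [Finset.mul_sum]
    _ ≤ (C * X) * T := by
        refine mul_le_mul_of_nonneg_left ?_ (by positivity)
        exact hs.sum_le_tsum _ (fun q _ => by positivity)
    _ ≤ (C * T + 1) * X := by
        have hX : (0 : ℝ) ≤ X := Nat.cast_nonneg X
        nlinarith

/-- the nonzero integers of absolute value at most `M` -/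
def sh (M : ℕ) : Finset ℤ :=
  (Icc 1 M).image (fun n : ℕ => (n : ℤ)) ∪ (Icc 1 M).image (fun n : ℕ => -(n : ℤ))

theorem mem_sh {M : ℕ} {a : ℤ} : a ∈ sh M ↔ a ≠ 0 ∧ |a| ≤ M := by
  unfold sh
  rw [Finset.mem_union, Finset.mem_image, Finset.mem_image]
  constructor
  · rintro (⟨n, hn, rfl⟩ | ⟨n, hn, rfl⟩)
    · rw [Finset.mem_Icc] at hn
      refine ⟨by omega, ?_⟩
      rw [abs_of_nonneg (by omega)]; omega
    · rw [Finset.mem_Icc] at hn
      refine ⟨by omega, ?_⟩
      rw [abs_neg, abs_of_nonneg (by omega)]; omega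
  · rintro ⟨h0, h1⟩
    rcases lt_trichotomy a 0 with h | h | h
    · right
      refine ⟨a.natAbs, ?_, by omega⟩
      rw [Finset.mem_Icc]
      rw [abs_of_neg h] at h1
      omega
    · exact absurd h h0
    · left
      refine ⟨a.natAbs, ?_, by omega⟩
      rw [Finset.mem_Icc]
      rw [abs_of_pos h] at h1
      omega

theorem sh_sum (M : ℕ) : ∑ a ∈ sh M, ((a.natAbs : ℝ) / (Nat.totient a.natAbs : ℝ)) ≤
    2 * ∑ d ∈ Icc 1 M, (d : ℝ) / Nat.totient d := by
  unfold sh
  have h1 := Finset.sum_union_inter (s₁ := (Icc 1 M).image (fun n : ℕ => (n : ℤ)))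
    (s₂ := (Icc 1 M).image (fun n : ℕ => -(n : ℤ)))
    (f := fun a : ℤ => ((a.natAbs : ℝ) / (Nat.totient a.natAbs : ℝ)))
  have h2 : 0 ≤ ∑ a ∈ (Icc 1 M).image (fun n : ℕ => (n : ℤ)) ∩
      (Icc 1 M).image (fun n : ℕ => -(n : ℤ)), ((a.natAbs : ℝ) / (Nat.totient a.natAbs : ℝ)) :=
    Finset.sum_nonneg fun a _ => by positivity
  have h3 : ∑ a ∈ (Icc 1 M).image (fun n : ℕ => (n : ℤ)),
      ((a.natAbs : ℝ) / (Nat.totient a.natAbs : ℝ)) = ∑ d ∈ Icc 1 M, (d : ℝ) / Nat.totient d := by
    rw [Finset.sum_image (by intro a _ b _ h; simpa using h)]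
    exact Finset.sum_congr rfl fun d _ => by simp
  have h4 : ∑ a ∈ (Icc 1 M).image (fun n : ℕ => -(n : ℤ)),
      ((a.natAbs : ℝ) / (Nat.totient a.natAbs : ℝ)) = ∑ d ∈ Icc 1 M, (d : ℝ) / Nat.totient d := by
    rw [Finset.sum_image (by intro a _ b _ h; simpa using h)]
    exact Finset.sum_congr rfl fun d _ => by simp
  rw [h3, h4] at h1
  linarith

/-- the primes `p ≤ N`, `p ≡ b (mod q)`, without another prime at distance `≤ C log N` -/
noncomputable def iso (C : ℝ) (N q : ℕ) (b : ℤ) : Finset ℕ := by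
  classical
  exact (Icc 1 N).filter (fun p : ℕ => p.Prime ∧ (p : ℤ) ≡ b [ZMOD q] ∧
    ∀ p' : ℕ, p'.Prime → p' ≠ p → C * Real.log N < |(p : ℝ) - p'|)

theorem mem_iso {C : ℝ} {N q : ℕ} {b : ℤ} {p : ℕ} : p ∈ iso C N q b ↔
    (1 ≤ p ∧ p ≤ N) ∧ p.Prime ∧ (p : ℤ) ≡ b [ZMOD q] ∧
    ∀ p' : ℕ, p'.Prime → p' ≠ p → C * Real.log N < |(p : ℝ) - p'| := by
  classical
  unfold iso
  simp only [Finset.mem_filter, Finset.mem_Icc]

/-- the primes `q ∈ (Q, 2Q]`, `q ∤ b`, with few isolated primes in the class `b` -/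
noncomputable def badq (C c : ℝ) (N Q : ℕ) (b : ℤ) : Finset ℕ := by
  classical
  exact (Ioc Q (2 * Q)).filter (fun q : ℕ => q.Prime ∧ ¬ (q : ℤ) ∣ b ∧
    ((iso C N q b).card : ℝ) < c * (N / (q * Real.log N)))

theorem mem_badq {C c : ℝ} {N Q : ℕ} {b : ℤ} {q : ℕ} : q ∈ badq C c N Q b ↔
    (Q < q ∧ q ≤ 2 * Q) ∧ q.Prime ∧ ¬ (q : ℤ) ∣ b ∧
    ((iso C N q b).card : ℝ) < c * (N / (q * Real.log N)) := by
  classical
  unfold badq
  simp only [Finset.mem_filter, Finset.mem_Ioc]


theorem gap_of (hP : PAS) : ∀ C : ℝ, 0 < C → ∃ c : ℝ, 0 < c ∧ ∀ θ ε δ : ℝ, θ < 14 / 27 → 0 < ε →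
    0 < δ → ∃ C₁ : ℝ, ∀ N : ℕ, 3 ≤ N → ∀ Q : ℕ, (N : ℝ) ^ ε ≤ Q → 2 * (Q : ℝ) ≤ (N : ℝ) ^ θ →
    (((Icc (-(N : ℤ)) N).filter (fun b : ℤ =>
      δ * Q / Real.log N < ((badq C c N Q b).card : ℝ))).card : ℝ) ≤ C₁ * Real.log N ^ 2 := by
  classical
  intro C hC
  obtain ⟨C0, hC0, hts⟩ := tot_sum
  obtain ⟨c, hc, N0, hpas⟩ := hP (2 * C0 * C)
  refine ⟨c / 2, by positivity, ?_⟩
  intro θ ε δ hθ hε hδ
  obtain ⟨η, C2, hη, hC2, hFC⟩ := FC_thm θ (ε / 2) hθ (by positivity)
  -- thresholds
  have hlim1 : ∀ᶠ N : ℕ in Filter.atTop, C * Real.log N ≤ N := by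
    have h1 := (Real.isLittleO_log_id_atTop.comp_tendsto tendsto_natCast_atTop_atTop).def
      (c := 1 / C) (by positivity)
    filter_upwards [h1] with N hN
    simp only [Function.comp, id, Real.norm_eq_abs] at hN
    have h2 := le_abs_self (Real.log N)
    have h3 : |(N : ℝ)| = N := abs_of_nonneg (Nat.cast_nonneg N)
    rw [h3] at hN
    have h4 : C * Real.log N ≤ C * (1 / C * N) := mul_le_mul_of_nonneg_left (h2.trans hN) hC.le
    have h5 : C * (1 / C * (N : ℝ)) = N := by field_simp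
    linarith
  have hlim2 : ∀ᶠ N : ℕ in Filter.atTop, Real.log N ≤ (c * δ / 8) * (N : ℝ) ^ η := by
    have h1 := ((isLittleO_log_rpow_atTop hη).comp_tendsto tendsto_natCast_atTop_atTop).def
      (c := c * δ / 8) (by positivity)
    filter_upwards [h1] with N hN
    simp only [Function.comp, Real.norm_eq_abs] at hN
    have h3 : |(N : ℝ) ^ η| = (N : ℝ) ^ η := abs_of_nonneg (by positivity)
    rw [h3] at hN
    exact (le_abs_self _).trans hN
  have hlim3 : ∀ᶠ N : ℕ in Filter.atTop, c * δ / 8 ≤ Real.log N :=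
    (Real.tendsto_log_atTop.comp tendsto_natCast_atTop_atTop).eventually_ge_atTop _
  obtain ⟨N1, hN1⟩ := Filter.eventually_atTop.1 (hlim1.and (hlim2.and hlim3))
  refine ⟨(2 * (max N0 N1 : ℕ) + 1 : ℝ) + C2 * (8 / (c * δ)) ^ 2, ?_⟩
  intro N hN Q hQ1 hQ2
  have hN' : (3 : ℝ) ≤ N := by exact_mod_cast hN
  have hlog1 : 1 < Real.log N := by
    rw [Real.lt_log_iff_exp_lt (by linarith)]
    have := Real.exp_one_lt_d9
    linarith
  have hlogp : 0 < Real.log N := by linarith
  rcases lt_or_ge N (max N0 N1) with hlt | hge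
  · -- small N
    have h1 : (((Icc (-(N : ℤ)) N).filter (fun b : ℤ =>
      δ * Q / Real.log N < ((badq C (c / 2) N Q b).card : ℝ))).card : ℝ) ≤ 2 * N + 1 := by
      have h2 : ((Icc (-(N : ℤ)) N).filter (fun b : ℤ =>
        δ * Q / Real.log N < ((badq C (c / 2) N Q b).card : ℝ))).card ≤ 2 * N + 1 := by
        refine (Finset.card_filter_le _ _).trans ?_
        rw [Int.card_Icc]; omega
      exact_mod_cast h2
    have h3 : (N : ℝ) ≤ (max N0 N1 : ℕ) := by exact_mod_cast hlt.le
    have h4 : (1 : ℝ) ≤ Real.log N ^ 2 := by nlinarith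
    have h5 : 0 ≤ C2 * (8 / (c * δ)) ^ 2 := by positivity
    have h6 : (0 : ℝ) ≤ (max N0 N1 : ℕ) := Nat.cast_nonneg _
    nlinarith
  · -- large N
    obtain ⟨g1, g2, g3⟩ := hN1 N ((le_max_right _ _).trans hge)
    have hN0 : N0 ≤ N := (le_max_left _ _).trans hge
    set M : ℕ := ⌊C * Real.log N⌋₊ with hM
    have hM1 : (M : ℝ) ≤ C * Real.log N := Nat.floor_le (by positivity)
    have hMN : M ≤ N := by
      have : (M : ℝ) ≤ N := hM1.trans g1
      exact_mod_cast this
    have hS := hpas N hN0 (sh M) (by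
      intro a ha
      have := mem_sh.1 ha
      exact ⟨this.2.trans (by exact_mod_cast hMN), this.1⟩) (by
      refine (sh_sum M).trans ?_
      have h1 := hts M
      have h2 : C0 * (M : ℝ) ≤ C0 * (C * Real.log N) := mul_le_mul_of_nonneg_left hM1 hC0.le
      nlinarith)
    set f : ℕ → ℝ := fun p => if p < N ∧ p.Prime ∧ ∀ a ∈ sh M, ¬ ((p : ℤ) - a).natAbs.Prime
      then 1 else 0 with hf
    have hf1 : ∀ p, |f p| ≤ 1 := by
      intro p
      simp only [hf]
      split_ifs <;> simp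
    have hfiso : ∀ p q : ℕ, ∀ b : ℤ, f p ≠ 0 → (p : ℤ) ≡ b [ZMOD q] → p ∈ iso C N q b := by
      intro p q b hp hpb
      simp only [hf] at hp
      split_ifs at hp with hcond
      · obtain ⟨h1, h2, h3⟩ := hcond
        rw [mem_iso]
        refine ⟨⟨h2.one_le, h1.le⟩, h2, hpb, ?_⟩
        intro p' hp' hne
        by_contra hcon
        rw [not_lt] at hcon
        have h4 : ((p : ℤ) - p') ∈ sh M := by
          rw [mem_sh]
          constructor
          · intro h0
            apply hne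
            omega
          · have h5 : |(((p : ℤ) - p' : ℤ) : ℝ)| ≤ C * Real.log N := by
              push_cast; exact hcon
            have h6 : (((|(p : ℤ) - p'|).toNat : ℕ) : ℝ) = |(((p : ℤ) - p' : ℤ) : ℝ)| := by
              rw [← Int.cast_abs]
              have : ((|(p : ℤ) - p'|).toNat : ℤ) = |(p : ℤ) - p'| :=
                Int.toNat_of_nonneg (abs_nonneg _)
              exact_mod_cast this
            have h7 : (|(p : ℤ) - p'|).toNat ≤ M := Nat.le_floor (by rw [h6]; exact h5)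
            omega
        have h8 := h3 _ h4
        apply h8
        have : ((p : ℤ) - ((p : ℤ) - p')).natAbs = p' := by
          have : (p : ℤ) - ((p : ℤ) - p') = p' := by ring
          rw [this]; simp
        rw [this]; exact hp'
      · exact absurd rfl hp
    -- the sum of f over all primes
    have hfS : c * (N / Real.log N) ≤ ∑ p ∈ (Icc 1 N).filter Nat.Prime, f p := by
      refine hS.trans ?_
      have h1 : (((Finset.range N).filter
        (fun p : ℕ => p.Prime ∧ ∀ a ∈ sh M, ¬ ((p : ℤ) - a).natAbs.Prime)).card : ℝ) =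
        ∑ p ∈ (Finset.range N).filter
        (fun p : ℕ => p.Prime ∧ ∀ a ∈ sh M, ¬ ((p : ℤ) - a).natAbs.Prime), f p := by
        rw [Finset.card_eq_sum_ones, Nat.cast_sum]
        refine Finset.sum_congr rfl fun p hp => ?_
        rw [Finset.mem_filter, Finset.mem_range] at hp
        simp only [hf]
        rw [if_pos ⟨hp.1, hp.2.1, hp.2.2⟩]; simp
      rw [h1]
      refine Finset.sum_le_sum_of_subset_of_nonneg ?_ ?_
      · intro p hp
        rw [Finset.mem_filter, Finset.mem_range] at hp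
        rw [Finset.mem_filter, Finset.mem_Icc]
        exact ⟨⟨hp.2.1.one_le, hp.1.le⟩, hp.2.1⟩
      · intro p _ _
        simp only [hf]
        split_ifs <;> norm_num
    set κ : ℝ := c * δ / (8 * Real.log N) with hκ
    have hκp : 0 < κ := by positivity
    have hκ1 : κ ≤ 1 := by
      rw [hκ, div_le_one (by positivity)]
      linarith
    have hκ2 : (N : ℝ) ^ (-η) ≤ κ := by
      rw [hκ, Real.rpow_neg (by positivity), le_div_iff₀ (by positivity), inv_mul_le_iff₀
        (by positivity)]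
      linarith
    have hfc := hFC N (by omega) f hf1 κ hκ2 hκ1
    have hsub : (Icc (-(N : ℤ)) N).filter (fun b : ℤ =>
        δ * Q / Real.log N < ((badq C (c / 2) N Q b).card : ℝ)) ⊆
        (Icc (-(N : ℤ)) N).filter (fun a : ℤ => κ * (N / Real.log N) <
          ∑ d ∈ (roughs ((N : ℝ) ^ (ε / 2)) ⌊(N : ℝ) ^ θ⌋₊).filter
            (fun d : ℕ => Int.gcd a d = 1), |Df f N a d|) := by
      intro b hb
      rw [Finset.mem_filter] at hb ⊢
      refine ⟨hb.1, ?_⟩
      have hQ0 : (0 : ℝ) < Q := lt_of_lt_of_le (by positivity) hQ1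
      -- every bad q contributes
      have hterm : ∀ q ∈ badq C (c / 2) N Q b,
          (c / 4) * (N / (Q * Real.log N)) ≤ |Df f N b q| := by
        intro q hq
        obtain ⟨⟨h1, h2⟩, h3, h4, h5⟩ := mem_badq.1 hq
        have hq0 : (0 : ℝ) < q := by exact_mod_cast h3.pos
        have hq2 : (q : ℝ) ≤ 2 * Q := by exact_mod_cast h2
        have hq1 : (1 : ℝ) < q := by exact_mod_cast h3.one_lt
        have h6 : ∑ p ∈ (Icc 1 N).filter (fun p : ℕ => p.Prime ∧ (p : ℤ) ≡ b [ZMOD q]), f p ≤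
            ((iso C N q b).card : ℝ) := by
          have e1 : ∑ p ∈ (Icc 1 N).filter (fun p : ℕ => p.Prime ∧ (p : ℤ) ≡ b [ZMOD q]), f p ≤
              ∑ p ∈ iso C N q b, (1 : ℝ) := by
            rw [← Finset.sum_filter_ne_zero]
            refine (Finset.sum_le_sum (g := fun _ => (1 : ℝ)) ?_).trans
              (Finset.sum_le_sum_of_subset_of_nonneg ?_ (fun _ _ _ => zero_le_one))
            · intro p _
              exact (le_abs_self _).trans (hf1 p)
            · intro p hp
              rw [Finset.mem_filter, Finset.mem_filter] at hp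
              exact hfiso p q b hp.2 hp.1.2.2
          refine e1.trans ?_
          rw [Finset.sum_const, nsmul_eq_mul, mul_one]
        have h7 : c * (N / (q * Real.log N)) ≤
            (∑ p ∈ (Icc 1 N).filter Nat.Prime, f p) / (Nat.totient q : ℝ) := by
          rw [Nat.totient_prime h3, Nat.cast_sub h3.one_le, Nat.cast_one]
          rw [le_div_iff₀ (by linarith)]
          have e2 : c * (N / (q * Real.log N)) * ((q : ℝ) - 1) ≤
              c * (N / (q * Real.log N)) * q :=
            mul_le_mul_of_nonneg_left (by linarith) (by positivity)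
          have e3 : c * (N / (q * Real.log N)) * q = c * (N / Real.log N) := by
            field_simp
          linarith
        have h8 : (c / 4) * (N / (Q * Real.log N)) ≤ (c / 2) * (N / (q * Real.log N)) := by
          have e4 : (N : ℝ) / (2 * Q * Real.log N) ≤ N / (q * Real.log N) :=
            div_le_div_of_nonneg_left (by positivity) (by positivity)
              (mul_le_mul_of_nonneg_right hq2 hlogp.le)
          have e5 : (c / 4) * (N / (Q * Real.log N)) = (c / 2) * (N / (2 * Q * Real.log N)) := by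
            field_simp; norm_num
          rw [e5]
          exact mul_le_mul_of_nonneg_left e4 (by positivity)
        have h9 : Df f N b q ≤ -((c / 2) * (N / (q * Real.log N))) := by
          unfold Df
          have e6 : c * ((N : ℝ) / (q * Real.log N)) = (c / 2) * (N / (q * Real.log N)) +
            (c / 2) * (N / (q * Real.log N)) := by ring
          linarith
        have h10 : (c / 2) * (N / (q * Real.log N)) ≤ |Df f N b q| := by
          have := neg_le_abs (Df f N b q)
          linarith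
        exact h8.trans h10
      have hcard : ((badq C (c / 2) N Q b).card : ℝ) * ((c / 4) * (N / (Q * Real.log N))) ≤
          ∑ d ∈ (roughs ((N : ℝ) ^ (ε / 2)) ⌊(N : ℝ) ^ θ⌋₊).filter
            (fun d : ℕ => Int.gcd b d = 1), |Df f N b d| := by
        rw [← nsmul_eq_mul, ← Finset.sum_const]
        refine (Finset.sum_le_sum hterm).trans
          (Finset.sum_le_sum_of_subset_of_nonneg ?_ (fun _ _ _ => abs_nonneg _))
        intro q hq
        obtain ⟨⟨h1, h2⟩, h3, h4, h5⟩ := mem_badq.1 hq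
        rw [Finset.mem_filter]
        constructor
        · unfold roughs
          rw [Finset.mem_filter, Finset.mem_Icc]
          refine ⟨⟨h3.one_le, ?_⟩, h3.one_lt, ?_⟩
          · refine Nat.le_floor (le_trans ?_ hQ2)
            exact_mod_cast h2
          · intro p hp hpq
            have : p = q := (Nat.prime_dvd_prime_iff_eq hp h3).1 hpq
            rw [this]
            have e7 : (N : ℝ) ^ (ε / 2) ≤ (N : ℝ) ^ ε :=
              Real.rpow_le_rpow_of_exponent_le (by linarith) (by linarith)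
            have e8 : (Q : ℝ) < q := by exact_mod_cast h1
            linarith
        · rw [Int.gcd_comm]
          have hcop : IsCoprime (q : ℤ) b :=
            (Int.prime_iff_natAbs_prime.2 (by simpa using h3)).coprime_iff_not_dvd.2 h4
          exact Int.isCoprime_iff_gcd_eq_one.1 hcop
      refine lt_of_lt_of_le ?_ hcard
      have e9 : δ * Q / Real.log N * ((c / 4) * (N / (Q * Real.log N))) <
          ((badq C (c / 2) N Q b).card : ℝ) * ((c / 4) * (N / (Q * Real.log N))) :=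
        mul_lt_mul_of_pos_right hb.2 (by positivity)
      have e10 : κ * (N / Real.log N) ≤ δ * Q / Real.log N * ((c / 4) * (N / (Q * Real.log N))) := by
        have e11 : δ * Q / Real.log N * ((c / 4) * (N / (Q * Real.log N))) =
          2 * (κ * (N / Real.log N)) := by
          rw [hκ]; field_simp; norm_num
        rw [e11]
        have : 0 ≤ κ * (N / Real.log N) := by positivity
        linarith
      linarith
    calc (((Icc (-(N : ℤ)) N).filter (fun b : ℤ =>
        δ * Q / Real.log N < ((badq C (c / 2) N Q b).card : ℝ))).card : ℝ)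
        ≤ _ := by exact_mod_cast Finset.card_le_card hsub
      _ ≤ C2 / κ ^ 2 := hfc
      _ = (C2 * (8 / (c * δ)) ^ 2) * Real.log N ^ 2 := by
        rw [hκ]; field_simp
      _ ≤ _ := by
        refine mul_le_mul_of_nonneg_right ?_ (by positivity)
        have : (0 : ℝ) ≤ 2 * (max N0 N1 : ℕ) + 1 := by positivity
        linarith

end Pool.Agent.H442R2.LP
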