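import Pool.Agent.H442R2.BX.Asm

/-!
Arbitrary sets of primes of size `≥ N^(1-η)` in progressions to prime moduli up to `N^(14/27 - ε)`,
and the primes followed by a gap `≥ lam log N`.
-/

set_option autoImplicit false

namespace Pool.Agent.H442R2.LP

open Finset
open Pool.Agent.H442R2.BX

/-- the primes `q ∈ (Q, 2Q]`, `q ∤ b`, such that fewer than `K/(2q)` elements of `P` are
`≡ b (mod q)` -/
noncomputable def badP (P : Finset ℕ) (K : ℝ) (Q : ℕ) (b : ℤ) : Finset ℕ := by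
  classical
  exact (Ioc Q (2 * Q)).filter (fun q : ℕ => q.Prime ∧ ¬ (q : ℤ) ∣ b ∧
    ((P.filter (fun p : ℕ => (p : ℤ) ≡ b [ZMOD q])).card : ℝ) < K / (2 * q))

theorem mem_badP {P : Finset ℕ} {K : ℝ} {Q : ℕ} {b : ℤ} {q : ℕ} : q ∈ badP P K Q b ↔
    (Q < q ∧ q ≤ 2 * Q) ∧ q.Prime ∧ ¬ (q : ℤ) ∣ b ∧
    ((P.filter (fun p : ℕ => (p : ℤ) ≡ b [ZMOD q])).card : ℝ) < K / (2 * q) := by
  classical
  unfold badP
  simp only [Finset.mem_filter, Finset.mem_Ioc]

theorem sub_of (θ ε δ : ℝ) (hθ : θ < 14 / 27) (hε : 0 < ε) (hδ : 0 < δ) (hδ1 : δ ≤ 1) :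
    ∃ (η C₁ : ℝ) (N₀ : ℕ), 0 < η ∧ 0 < C₁ ∧ ∀ N : ℕ, N₀ ≤ N → ∀ P : Finset ℕ,
    (∀ p ∈ P, p.Prime ∧ p ≤ N) → (N : ℝ) ^ (1 - η) ≤ P.card →
    ∀ Q : ℕ, (N : ℝ) ^ ε ≤ Q → 2 * (Q : ℝ) ≤ (N : ℝ) ^ θ →
    (((Icc (-(N : ℤ)) N).filter (fun b : ℤ =>
      δ * Q / Real.log N < ((badP P P.card Q b).card : ℝ))).card : ℝ) ≤
      C₁ * (N / P.card) ^ 2 := by
  classical
  obtain ⟨η, C2, hη, hC2, hFC⟩ := FC_thm θ (ε / 2) hθ (by positivity)
  have hlim1 : ∀ᶠ N : ℕ in Filter.atTop, 8 / δ ≤ (N : ℝ) ^ (η / 2) :=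
    ((tendsto_rpow_atTop (by positivity : 0 < η / 2)).comp
      tendsto_natCast_atTop_atTop).eventually_ge_atTop _
  obtain ⟨N1, hN1⟩ := Filter.eventually_atTop.1 hlim1
  refine ⟨η / 2, C2 * (8 / δ) ^ 2, max N1 3, by positivity, by positivity, ?_⟩
  intro N hN P hP hcard Q hQ1 hQ2
  have hN3 : 3 ≤ N := (le_max_right _ _).trans hN
  have hN' : (3 : ℝ) ≤ N := by exact_mod_cast hN3
  have hlogp : 0 < Real.log N := Real.log_pos (by linarith)
  have g1 := hN1 N ((le_max_left _ _).trans hN)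
  have hPpos : (0 : ℝ) < P.card := lt_of_lt_of_le (by positivity) hcard
  have hPN : (P.card : ℝ) ≤ N := by
    have h1 : P.card ≤ N := by
      have h2 : P ⊆ Icc 1 N := fun p hp =>
        Finset.mem_Icc.2 ⟨(hP p hp).1.one_le, (hP p hp).2⟩
      simpa using Finset.card_le_card h2
    exact_mod_cast h1
  set f : ℕ → ℝ := fun p => if p ∈ P then 1 else 0 with hf
  have hf1 : ∀ p, |f p| ≤ 1 := by
    intro p
    simp only [hf]
    split_ifs <;> simp
  have hfS : ∑ p ∈ (Icc 1 N).filter Nat.Prime, f p = P.card := by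
    simp only [hf]
    rw [← Finset.sum_filter, Finset.sum_const, nsmul_eq_mul, mul_one]
    congr 2
    ext p
    simp only [Finset.mem_filter, Finset.mem_Icc]
    constructor
    · exact fun h => h.2
    · exact fun h => ⟨⟨⟨(hP p h).1.one_le, (hP p h).2⟩, (hP p h).1⟩, h⟩
  have hfT : ∀ (q : ℕ) (b : ℤ),
      ∑ p ∈ (Icc 1 N).filter (fun p : ℕ => p.Prime ∧ (p : ℤ) ≡ b [ZMOD q]), f p =
      ((P.filter (fun p : ℕ => (p : ℤ) ≡ b [ZMOD q])).card : ℝ) := by
    intro q b
    simp only [hf]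
    rw [← Finset.sum_filter, Finset.sum_const, nsmul_eq_mul, mul_one]
    congr 2
    ext p
    simp only [Finset.mem_filter, Finset.mem_Icc]
    constructor
    · exact fun h => ⟨h.2, h.1.2.2⟩
    · exact fun h => ⟨⟨⟨(hP p h.1).1.one_le, (hP p h.1).2⟩, (hP p h.1).1, h.2⟩, h.1⟩
  set κ : ℝ := δ * P.card / (8 * N) with hκ
  have hκp : 0 < κ := by positivity
  have hκ1 : κ ≤ 1 := by
    rw [hκ, div_le_one (by positivity)]
    nlinarith
  have hκ2 : (N : ℝ) ^ (-η) ≤ κ := by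
    have h1 : (N : ℝ) ^ (-η) * (N : ℝ) * ((N : ℝ) ^ (η / 2)) = (N : ℝ) ^ (1 - η / 2) := by
      have h2 : (N : ℝ) ^ (-η) * (N : ℝ) = (N : ℝ) ^ (-η + 1) := by
        rw [Real.rpow_add_one (by positivity)]
      rw [h2, ← Real.rpow_add (by positivity)]
      congr 1; ring
    rw [hκ, le_div_iff₀ (by positivity)]
    have h3 : (N : ℝ) ^ (-η) * (8 * N) ≤ δ * ((N : ℝ) ^ (-η) * (N : ℝ) * ((N : ℝ) ^ (η / 2))) := by
      have h4 : 8 ≤ δ * (N : ℝ) ^ (η / 2) := by
        rw [div_le_iff₀ hδ] at g1; linarith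
      have h5 : 0 ≤ (N : ℝ) ^ (-η) * (N : ℝ) := by positivity
      nlinarith
    rw [h1] at h3
    have h6 : δ * (N : ℝ) ^ (1 - η / 2) ≤ δ * P.card := mul_le_mul_of_nonneg_left hcard hδ.le
    linarith
  have hfc := hFC N (by omega) f hf1 κ hκ2 hκ1
  have hsub : (Icc (-(N : ℤ)) N).filter (fun b : ℤ =>
      δ * Q / Real.log N < ((badP P P.card Q b).card : ℝ)) ⊆
      (Icc (-(N : ℤ)) N).filter (fun a : ℤ => κ * (N / Real.log N) <
        ∑ d ∈ (roughs ((N : ℝ) ^ (ε / 2)) ⌊(N : ℝ) ^ θ⌋₊).filter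
          (fun d : ℕ => Int.gcd a d = 1), |Df f N a d|) := by
    intro b hb
    rw [Finset.mem_filter] at hb ⊢
    refine ⟨hb.1, ?_⟩
    have hQ0 : (0 : ℝ) < Q := lt_of_lt_of_le (by positivity) hQ1
    have hterm : ∀ q ∈ badP P P.card Q b, (P.card : ℝ) / (4 * Q) ≤ |Df f N b q| := by
      intro q hq
      obtain ⟨⟨h1, h2⟩, h3, h4, h5⟩ := mem_badP.1 hq
      have hq0 : (0 : ℝ) < q := by exact_mod_cast h3.pos
      have hq2 : (q : ℝ) ≤ 2 * Q := by exact_mod_cast h2
      have hq1 : (1 : ℝ) < q := by exact_mod_cast h3.one_lt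
      have h7 : (P.card : ℝ) / q ≤
          (∑ p ∈ (Icc 1 N).filter Nat.Prime, f p) / (Nat.totient q : ℝ) := by
        rw [hfS, Nat.totient_prime h3, Nat.cast_sub h3.one_le, Nat.cast_one]
        exact div_le_div_of_nonneg_left hPpos.le (by linarith) (by linarith)
      have h8 : (P.card : ℝ) / (4 * Q) ≤ P.card / (2 * q) :=
        div_le_div_of_nonneg_left hPpos.le (by positivity) (by linarith)
      have h9 : Df f N b q ≤ -((P.card : ℝ) / (2 * q)) := by
        unfold Df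
        rw [hfT q b]
        have e6 : (P.card : ℝ) / q = P.card / (2 * q) + P.card / (2 * q) := by
          field_simp; norm_num
        linarith
      have := neg_le_abs (Df f N b q)
      linarith
    have hcard2 : ((badP P P.card Q b).card : ℝ) * ((P.card : ℝ) / (4 * Q)) ≤
        ∑ d ∈ (roughs ((N : ℝ) ^ (ε / 2)) ⌊(N : ℝ) ^ θ⌋₊).filter
          (fun d : ℕ => Int.gcd b d = 1), |Df f N b d| := by
      rw [← nsmul_eq_mul, ← Finset.sum_const]
      refine (Finset.sum_le_sum hterm).trans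
        (Finset.sum_le_sum_of_subset_of_nonneg ?_ (fun _ _ _ => abs_nonneg _))
      intro q hq
      obtain ⟨⟨h1, h2⟩, h3, h4, h5⟩ := mem_badP.1 hq
      rw [Finset.mem_filter]
      constructor
      · unfold roughs
        rw [Finset.mem_filter, Finset.mem_Icc]
        refine ⟨⟨h3.one_le, ?_⟩, h3.one_lt, ?_⟩
        · refine Nat.le_floor (le_trans ?_ hQ2)
          exact_mod_cast h2
        · intro p hp hpq
          have : p = q := (Nat.prime_dvd_prime_iff_eq hp h3).1 hpq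
          rw [this]
          have e7 : (N : ℝ) ^ (ε / 2) ≤ (N : ℝ) ^ ε :=
            Real.rpow_le_rpow_of_exponent_le (by linarith) (by linarith)
          have e8 : (Q : ℝ) < q := by exact_mod_cast h1
          linarith
      · rw [Int.gcd_comm]
        have hcop : IsCoprime (q : ℤ) b :=
          (Int.prime_iff_natAbs_prime.2 (by simpa using h3)).coprime_iff_not_dvd.2 h4
        exact Int.isCoprime_iff_gcd_eq_one.1 hcop
    refine lt_of_lt_of_le ?_ hcard2
    have e9 : δ * Q / Real.log N * ((P.card : ℝ) / (4 * Q)) <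
        ((badP P P.card Q b).card : ℝ) * ((P.card : ℝ) / (4 * Q)) :=
      mul_lt_mul_of_pos_right hb.2 (by positivity)
    have e10 : κ * (N / Real.log N) ≤ δ * Q / Real.log N * ((P.card : ℝ) / (4 * Q)) := by
      have e11 : δ * Q / Real.log N * ((P.card : ℝ) / (4 * Q)) = 2 * (κ * (N / Real.log N)) := by
        rw [hκ]; field_simp; norm_num
      rw [e11]
      have : 0 ≤ κ * (N / Real.log N) := by positivity
      linarith
    linarith
  calc (((Icc (-(N : ℤ)) N).filter (fun b : ℤ =>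
      δ * Q / Real.log N < ((badP P P.card Q b).card : ℝ))).card : ℝ)
      ≤ _ := by exact_mod_cast Finset.card_le_card hsub
    _ ≤ C2 / κ ^ 2 := hfc
    _ = C2 * (8 / δ) ^ 2 * (N / P.card) ^ 2 := by
      rw [hκ]; field_simp

/-- statement of `MP_c853c5_nt.GapFrequency` -/
def GF : Prop := ∃ c : ℝ, 0 < c ∧ ∃ x₀ : ℕ, ∀ x : ℕ, x₀ ≤ x →
    ∀ lam : ℝ, 2 ≤ lam → lam * (Real.log lam) ^ 2 ≤ c * Real.log (Real.log x) →
    ∃ G : Finset ℕ, x * Real.exp (-((lam * Real.log x) ^ (1 - c / (lam * Real.log lam)))) ≤ G.card ∧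
      ∀ p ∈ G, p.Prime ∧ p ≤ x ∧ ∀ q : ℕ, q.Prime → p < q → lam * Real.log x ≤ (q : ℝ) - p

/-- the exponent of `GF` is `≤ η log x` if the constant is small -/
theorem exp_le (c η : ℝ) (hc : 0 < c) (hη : 0 < η) : ∃ c' : ℝ, 0 < c' ∧ c' ≤ c ∧ ∀ L lam : ℝ,
    1 < L → 2 ≤ lam → lam * (Real.log lam) ^ 2 ≤ c' * Real.log L →
    (lam * L) ^ (1 - c / (lam * Real.log lam)) ≤ η * L := by
  -- `(lam L)^(1-s) ≤ η L`, `s = c/(lam log lam)`; `log`: `(1-s)(log lam + log L) ≤ log η + log L`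
  set D : ℝ := 1 + |Real.log η| / Real.log 2 with hD
  have hlog2 : 0 < Real.log 2 := Real.log_pos (by norm_num)
  have hDp : 1 ≤ D := by
    rw [hD]; have : 0 ≤ |Real.log η| / Real.log 2 := by positivity
    linarith
  refine ⟨c / D, by positivity, div_le_self hc.le hDp, ?_⟩
  intro L lam hL hlam hcond
  have hlogL : 0 < Real.log L := Real.log_pos hL
  have hloglam : Real.log 2 ≤ Real.log lam := Real.log_le_log (by norm_num) hlam
  have hll : 0 < Real.log lam := by linarith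
  have hlamp : 0 < lam := by linarith
  have hLp : 0 < L := by linarith
  set s : ℝ := c / (lam * Real.log lam) with hs
  have hsp : 0 < s := by positivity
  -- `s log L ≥ D log lam`
  have h1 : D * Real.log lam ≤ s * Real.log L := by
    have h2 : D * (lam * (Real.log lam) ^ 2) ≤ c * Real.log L := by
      have h3 : D * (lam * (Real.log lam) ^ 2) ≤ D * (c / D * Real.log L) :=
        mul_le_mul_of_nonneg_left hcond (by linarith)
      have h4 : D * (c / D * Real.log L) = c * Real.log L := by field_simp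
      linarith
    rw [hs, div_mul_eq_mul_div, le_div_iff₀ (by positivity)]
    nlinarith
  have h5 : |Real.log η| ≤ (D - 1) * Real.log lam := by
    have h6 : (D - 1) * Real.log 2 = |Real.log η| := by
      rw [hD]; field_simp; ring
    have h7 : (D - 1) * Real.log 2 ≤ (D - 1) * Real.log lam :=
      mul_le_mul_of_nonneg_left hloglam (by linarith)
    linarith
  have h8 : -|Real.log η| ≤ Real.log η := neg_abs_le _
  have h9 : (1 - s) * Real.log (lam * L) ≤ Real.log (η * L) := by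
    rw [Real.log_mul (by positivity) (by positivity), Real.log_mul (by positivity) (by positivity)]
    have h10 : 0 < s * Real.log lam := by positivity
    nlinarith
  rw [← Real.log_le_log_iff (by positivity) (by positivity), Real.log_rpow (by positivity)]
  exact h9

theorem gapB_of (hGF : GF) : ∀ θ ε δ : ℝ, θ < 14 / 27 → 0 < ε → 0 < δ →
    ∃ (c C₁ : ℝ) (N₀ : ℕ), 0 < c ∧ ∀ N : ℕ, N₀ ≤ N →
    ∀ lam : ℝ, 2 ≤ lam → lam * (Real.log lam) ^ 2 ≤ c * Real.log (Real.log N) →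
    ∀ Q : ℕ, (N : ℝ) ^ ε ≤ Q → 2 * (Q : ℝ) ≤ (N : ℝ) ^ θ →
    ∀ R : ℝ, R = Real.exp ((lam * Real.log N) ^ (1 - c / (lam * Real.log lam))) →
    ∀ W : Finset ℕ, (∀ p : ℕ, p ∈ W ↔ p.Prime ∧ p ≤ N ∧
      ∀ q : ℕ, q.Prime → p < q → lam * Real.log N ≤ (q : ℝ) - p) →
    (((Icc (-(N : ℤ)) N).filter (fun b : ℤ =>
      δ * Q / Real.log N < ((badP W (N / R) Q b).card : ℝ))).card : ℝ) ≤ C₁ * R ^ 2 := by
  classical
  intro θ ε δ hθ hε hδ
  obtain ⟨c, hc, x0, hgf⟩ := hGF
  set δ' : ℝ := min δ 1 with hδ'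
  have hδp : 0 < δ' := lt_min hδ one_pos
  obtain ⟨η, C₁, N1, hη, hC₁, hsub⟩ := sub_of θ ε δ' hθ hε hδp (min_le_right _ _)
  obtain ⟨c', hc', hcc', hexp⟩ := exp_le c η hc hη
  refine ⟨c', C₁, max (max x0 N1) 16, hc', ?_⟩
  intro N hN lam hlam hcond Q hQ1 hQ2 R hR W hW
  have hN16 : 16 ≤ N := (le_max_right _ _).trans hN
  have hNx : x0 ≤ N := (le_max_left _ _).trans ((le_max_left _ _).trans hN)
  have hNN : N1 ≤ N := (le_max_right _ _).trans ((le_max_left _ _).trans hN)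
  have hN' : (16 : ℝ) ≤ N := by exact_mod_cast hN16
  have hL : 1 < Real.log N := by
    rw [Real.lt_log_iff_exp_lt (by linarith)]
    have := Real.exp_one_lt_d9
    linarith
  have hLL : 0 ≤ Real.log (Real.log N) := Real.log_nonneg hL.le
  have hcond2 : lam * (Real.log lam) ^ 2 ≤ c * Real.log (Real.log N) :=
    hcond.trans (mul_le_mul_of_nonneg_right hcc' hLL)
  obtain ⟨G, hG1, hG2⟩ := hgf N hNx lam hlam hcond2
  have hloglam : 0 < Real.log lam := Real.log_pos (by linarith)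
  have hbase : 1 ≤ lam * Real.log N := by nlinarith
  set E : ℝ := (lam * Real.log N) ^ (1 - c / (lam * Real.log lam)) with hE
  set E' : ℝ := (lam * Real.log N) ^ (1 - c' / (lam * Real.log lam)) with hE'
  have hEE : E ≤ E' := by
    rw [hE, hE']
    refine Real.rpow_le_rpow_of_exponent_le hbase ?_
    have : c' / (lam * Real.log lam) ≤ c / (lam * Real.log lam) :=
      div_le_div_of_nonneg_right hcc' (by positivity)
    linarith
  have hEη : E ≤ η * Real.log N := hexp _ _ hL hlam hcond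
  have hRp : 0 < R := by rw [hR]; exact Real.exp_pos _
  -- `G ⊆ W`
  have hGW : G ⊆ W := fun p hp => (hW p).2 (hG2 p hp)
  have hWc : (N : ℝ) * Real.exp (-E) ≤ W.card :=
    hG1.trans (by exact_mod_cast Finset.card_le_card hGW)
  have hNR : (N : ℝ) / R ≤ W.card := by
    refine le_trans ?_ hWc
    rw [hR, div_eq_mul_inv, ← Real.exp_neg]
    refine mul_le_mul_of_nonneg_left (Real.exp_le_exp.2 (by linarith)) (by positivity)
  have hWbig : (N : ℝ) ^ (1 - η) ≤ W.card := by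
    refine le_trans ?_ hWc
    rw [Real.rpow_sub (by positivity), Real.rpow_one, div_eq_mul_inv, ← Real.rpow_neg (by positivity),
      Real.rpow_def_of_pos (by positivity)]
    refine mul_le_mul_of_nonneg_left (Real.exp_le_exp.2 (by linarith)) (by positivity)
  have hmain := hsub N hNN W (fun p hp => ⟨((hW p).1 hp).1, ((hW p).1 hp).2.1⟩) hWbig Q hQ1 hQ2
  have hWpos : (0 : ℝ) < W.card := lt_of_lt_of_le (by positivity) hNR
  have hfin : C₁ * ((N : ℝ) / W.card) ^ 2 ≤ C₁ * R ^ 2 := by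
    refine mul_le_mul_of_nonneg_left (pow_le_pow_left₀ (by positivity) ?_ 2) hC₁.le
    rw [div_le_iff₀ hWpos]
    rw [div_le_iff₀ hRp] at hNR
    linarith
  refine le_trans ?_ (hmain.trans hfin)
  have hss : (Icc (-(N : ℤ)) N).filter (fun b : ℤ =>
      δ * Q / Real.log N < ((badP W (N / R) Q b).card : ℝ)) ⊆
      (Icc (-(N : ℤ)) N).filter (fun b : ℤ =>
      δ' * Q / Real.log N < ((badP W W.card Q b).card : ℝ)) := by
    intro b hb
    rw [Finset.mem_filter] at hb ⊢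
    refine ⟨hb.1, ?_⟩
    have h1 : badP W (N / R) Q b ⊆ badP W W.card Q b := by
      intro q hq
      rw [mem_badP] at hq ⊢
      refine ⟨hq.1, hq.2.1, hq.2.2.1, lt_of_lt_of_le hq.2.2.2 ?_⟩
      have hq0 : (0 : ℝ) < q := by exact_mod_cast hq.2.1.pos
      exact div_le_div_of_nonneg_right hNR (by positivity)
    have h2 : ((badP W (N / R) Q b).card : ℝ) ≤ ((badP W W.card Q b).card : ℝ) := by
      exact_mod_cast Finset.card_le_card h1
    have h3 : δ' * Q / Real.log N ≤ δ * Q / Real.log N := by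
      refine div_le_div_of_nonneg_right ?_ (by linarith)
      exact mul_le_mul_of_nonneg_right (min_le_left _ _) (Nat.cast_nonneg _)
    linarith [hb.2]
  exact_mod_cast Finset.card_le_card hss

end Pool.Agent.H442R2.LP
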