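import Pool.Agent.H442R2.LP.GapB
import Pool.Agent.H312R2.PG.E1
import Pool.Agent.H312R2.PG.E2d
import Pool.Agent.H312R2.PG.E3

/-! The statement `GF` (same proof as `MP_c853c5_nt.GapFrequency` of helper312). -/

namespace Pool.Agent.H442R2.LP

theorem gf_thm : GF := by
  classical
  obtain ⟨c, hc, x0, h⟩ := Pool.Agent.H312R2.PG.T2_of Pool.Agent.H312R2.PG.E1.mediumFree
    Pool.Agent.H312R2.PG.posProp
  refine ⟨c, hc, x0, fun x hx lam hlam hr => ?_⟩
  set S := {i ∈ Finset.range (Nat.primeCounting x) | lam * Real.log x ≤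
    ((Pool.Agent.H312R2.P (i + 1) - Pool.Agent.H312R2.P i : ℕ) : ℝ)} with hS
  refine ⟨S.image Pool.Agent.H312R2.P, ?_, ?_⟩
  · rw [Finset.card_image_of_injective _ Pool.Agent.H312R2.P_mono.injective]
    exact h x hx lam hlam hr
  · intro p hp
    obtain ⟨i, hi, rfl⟩ := Finset.mem_image.1 hp
    rw [hS, Finset.mem_filter, Finset.mem_range] at hi
    refine ⟨Pool.Agent.H312R2.P_prime i, (Pool.Agent.H312R2.P_le_iff x i).2 hi.1, fun q hq hpq => ?_⟩
    have h1 : Pool.Agent.H312R2.P (i + 1) ≤ q := by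
      have e := Pool.Agent.H312R2.P_count hq
      rw [← e] at hpq ⊢
      exact Pool.Agent.H312R2.P_mono.monotone (Pool.Agent.H312R2.P_mono.lt_iff_lt.1 hpq)
    have h2 : Pool.Agent.H312R2.P i ≤ Pool.Agent.H312R2.P (i + 1) :=
      Pool.Agent.H312R2.P_mono.monotone (Nat.le_succ i)
    have h3 := hi.2
    rw [Nat.cast_sub h2] at h3
    have h4 : (Pool.Agent.H312R2.P (i + 1) : ℝ) ≤ q := by exact_mod_cast h1
    linarith

end Pool.Agent.H442R2.LP
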